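import Pool.Agent.MP_66cee2_co.D.SpecT

/-
The points of a sphere off finitely many hyperplanes are dense.
-/

namespace Pool.Agent.MP_66cee2_co.H51Q

open Set Metric Module Filter Topology Pool.Agent.MP_66cee2_co.X Pool.Agent.MP_66cee2_co.D
open scoped RealInnerProductSpace

variable {d : ℕ}

theorem ex_perp (M : Submodule ℝ (E d)) (hM : 2 ≤ finrank ℝ M) (x : E d) :
    ∃ e ∈ M, e ≠ 0 ∧ ⟪e, x⟫ = 0 := by
  have f1 := Submodule.finrank_add_finrank_orthogonal (ℝ ∙ x)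
  have f2 := Submodule.finrank_sup_add_finrank_inf_eq M (ℝ ∙ x)ᗮ
  have f3 := Submodule.finrank_le (M ⊔ (ℝ ∙ x)ᗮ)
  have f4 : finrank ℝ (ℝ ∙ x) ≤ 1 := by
    simpa using finrank_span_le_card (R := ℝ) ({x} : Set (E d))
  have f5 : (M ⊓ (ℝ ∙ x)ᗮ : Submodule ℝ (E d)) ≠ ⊥ := fun h => by
    rw [h, finrank_bot] at f2
    omega
  obtain ⟨e, he, e0⟩ := Submodule.exists_mem_ne_zero_of_ne_bot f5
  exact ⟨e, he.1, e0, Submodule.mem_orthogonal_singleton_iff_inner_left.1 he.2⟩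

theorem dens1 {o : E d} {M : Submodule ℝ (E d)} {ρ : ℝ} (hM : 2 ≤ finrank ℝ M) (hρ : 0 < ρ)
    (v : E d) (t : ℝ) (hf : ∃ y ∈ Sph o M ρ, ⟪y, v⟫ ≠ t) (U : Set (E d)) (hU : IsOpen U)
    {y : E d} (hy : y ∈ Sph o M ρ) (hyU : y ∈ U) : ∃ y' ∈ Sph o M ρ, y' ∈ U ∧ ⟪y', v⟫ ≠ t := by
  by_cases h0 : ⟪y, v⟫ = t
  swap
  · exact ⟨y, hy, hyU, h0⟩
  obtain ⟨x, rfl⟩ : ∃ x, y = o + x := ⟨y - o, by abel⟩
  have xM : x ∈ M := by simpa using hy.1
  have xn : ‖x‖ = ρ := by simpa using hy.2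
  have xx : ⟪x, x⟫ = ρ ^ 2 := by rw [real_inner_self_eq_norm_sq, xn]
  obtain ⟨e, eM, e0, ex, ev⟩ : ∃ e ∈ M, e ≠ 0 ∧ ⟪e, x⟫ = 0 ∧ (⟪e, v⟫ ≠ 0 ∨ ⟪x, v⟫ ≠ 0) := by
    by_cases h1 : ⟪x, v⟫ = 0
    · obtain ⟨z, hz, zv⟩ := hf
      have h2 : ⟪z - o - (⟪z - o, x⟫ / ρ ^ 2) • x, v⟫ ≠ 0 := by
        rw [inner_sub_left, real_inner_smul_left, h1, mul_zero, sub_zero, inner_sub_left]
        rw [inner_add_left, h1, add_zero] at h0
        rw [h0]
        exact sub_ne_zero.2 zv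
      refine ⟨_, M.sub_mem hz.1 (M.smul_mem _ xM), fun e => h2 (by rw [e, inner_zero_left]), ?_,
        Or.inl h2⟩
      rw [inner_sub_left, real_inner_smul_left, xx, div_mul_cancel₀ _ (by positivity), sub_self]
    · obtain ⟨e, a, b, c⟩ := ex_perp M hM x
      exact ⟨e, a, b, c, Or.inr h1⟩
  have en : 0 < ‖e‖ := norm_pos_iff.2 e0
  set k : ℝ := ρ / ‖e‖ with hk
  have k0 : 0 < k := by positivity
  have ke : k * ‖e‖ = ρ := div_mul_cancel₀ _ en.ne'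
  let γ : ℝ → E d := fun s => o + (((1 - s ^ 2) / (1 + s ^ 2)) • x + (2 * s / (1 + s ^ 2) * k) • e)
  have γc : Continuous γ := by
    have h : ∀ s : ℝ, 1 + s ^ 2 ≠ 0 := fun s => by positivity
    have c1 : Continuous fun s : ℝ => (1 - s ^ 2) / (1 + s ^ 2) :=
      Continuous.div (by fun_prop) (by fun_prop) h
    have c2 : Continuous fun s : ℝ => 2 * s / (1 + s ^ 2) :=
      Continuous.div (by fun_prop) (by fun_prop) h
    simp only [γ]
    fun_prop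
  have γ0 : γ 0 = o + x := by simp [γ]
  have γs : ∀ s, γ s ∈ Sph o M ρ := fun s => by
    refine ⟨?_, ?_⟩
    · simp only [γ, add_sub_cancel_left]
      exact M.add_mem (M.smul_mem _ xM) (M.smul_mem _ eM)
    · simp only [γ, add_sub_cancel_left]
      have h : (1 + s ^ 2) ≠ 0 := by positivity
      refine (pow_left_inj₀ (norm_nonneg _) hρ.le two_ne_zero).1 ?_
      rw [norm_add_sq_real, real_inner_smul_left, real_inner_smul_right, real_inner_comm, ex,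
        norm_smul, norm_smul, xn, mul_pow, mul_pow, Real.norm_eq_abs, Real.norm_eq_abs, sq_abs,
        sq_abs, mul_pow, mul_assoc _ (k ^ 2), ← mul_pow k, ke]
      field_simp
      ring
  have ev1 : ∀ᶠ s in 𝓝[>] (0 : ℝ), γ s ∈ U :=
    mem_nhdsWithin_of_mem_nhds (γc.continuousAt.preimage_mem_nhds (hU.mem_nhds (γ0 ▸ hyU)))
  have ev2 : ∀ᶠ s in 𝓝[>] (0 : ℝ), k * ⟪e, v⟫ ≠ s * ⟪x, v⟫ := by
    by_cases h1 : ⟪e, v⟫ = 0
    · filter_upwards [self_mem_nhdsWithin] with s hs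
      rw [h1, mul_zero]
      exact (mul_ne_zero (ne_of_gt hs) (ev.resolve_left (not_not.2 h1))).symm
    · refine mem_nhdsWithin_of_mem_nhds ?_
      have c1 : Continuous fun s : ℝ => s * ⟪x, v⟫ := by fun_prop
      refine (isOpen_ne_fun continuous_const c1).mem_nhds ?_
      simpa using ⟨k0.ne', h1⟩
  obtain ⟨s, s1, s2, s3⟩ := (ev1.and (ev2.and self_mem_nhdsWithin)).exists
  refine ⟨γ s, γs s, s1, fun h => s2 ?_⟩
  have s0 : (0 : ℝ) < s := s3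
  have h1 : (1 + s ^ 2) ≠ 0 := by positivity
  rw [← h0] at h
  simp only [γ, inner_add_left, real_inner_smul_left, add_right_inj] at h
  field_simp at h
  apply mul_left_cancel₀ s0.ne'
  linarith

theorem dens {o : E d} {M : Submodule ℝ (E d)} {ρ : ℝ} (hM : 2 ≤ finrank ℝ M) (hρ : 0 < ρ)
    (Hs : Finset (E d × ℝ)) (hf : ∀ f ∈ Hs, ∃ y ∈ Sph o M ρ, ⟪y, f.1⟫ ≠ f.2) (U : Set (E d))
    (hU : IsOpen U) {y : E d} (hy : y ∈ Sph o M ρ) (hyU : y ∈ U) :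
    ∃ y' ∈ Sph o M ρ, y' ∈ U ∧ ∀ f ∈ Hs, ⟪y', f.1⟫ ≠ f.2 := by
  classical
  induction Hs using Finset.induction_on generalizing U y with
  | empty => exact ⟨y, hy, hyU, by simp⟩
  | insert g Hs _ ih =>
    obtain ⟨z, z1, z2, z3⟩ := dens1 hM hρ g.1 g.2 (hf g (Finset.mem_insert_self _ _)) U hU hy hyU
    have c1 : Continuous fun x : E d => ⟪x, g.1⟫ := by fun_prop
    obtain ⟨w, w1, w2, w3⟩ := ih (fun f h => hf f (Finset.mem_insert_of_mem h))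
      (U ∩ {x | ⟪x, g.1⟫ ≠ g.2}) (hU.inter (isOpen_ne_fun c1 continuous_const)) z1 ⟨z2, z3⟩
    refine ⟨w, w1, w2.1, fun f h => ?_⟩
    rcases Finset.mem_insert.1 h with rfl | h
    · exact w2.2
    · exact w3 f h

end Pool.Agent.MP_66cee2_co.H51Q
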